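import Mathlib

/-!
Even entire functions as entire functions of the square; the functions `cos (sqrt u)` and
`sin (sqrt u) / sqrt u`.
-/

open Complex Filter Topology
open scoped Real

namespace Pool.Agent.P.MP_977360_an

lemma sqrt_sq' (u : ℂ) : (Complex.sqrt u) ^ 2 = u := by
  simp [Complex.sqrt]

lemma even_congr {φ : ℂ → ℂ} (he : ∀ z, φ (-z) = φ z) {z w : ℂ} (h : z ^ 2 = w ^ 2) :
    φ z = φ w := by
  rcases sq_eq_sq_iff_eq_or_eq_neg.mp h with h | h
  · rw [h]
  · rw [h, he]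

lemma differentiable_even_sqrt {φ : ℂ → ℂ} (hφ : Differentiable ℂ φ) (he : ∀ z, φ (-z) = φ z) :
    Differentiable ℂ (fun u => φ (Complex.sqrt u)) := by
  have key : ∀ u : ℂ, u ≠ 0 → DifferentiableAt ℂ (fun u => φ (Complex.sqrt u)) u := by
    intro u hu
    rcases Complex.mem_slitPlane_or_neg_mem_slitPlane hu with h | h
    · exact (hφ _).comp u (Complex.differentiableAt_sqrt h)
    · have e : (fun u => φ (Complex.sqrt u)) = fun u => φ (I * Complex.sqrt (-u)) := by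
        funext v
        apply even_congr he
        rw [mul_pow, sqrt_sq', sqrt_sq', I_sq]; ring
      rw [e]
      refine (hφ _).comp u (DifferentiableAt.const_mul ?_ _)
      exact (Complex.differentiableAt_sqrt h).comp u differentiableAt_id.neg
  intro u
  by_cases hu : u = 0
  · subst hu
    refine (Complex.analyticAt_of_differentiable_on_punctured_nhds_of_continuousAt ?_ ?_).differentiableAt
    · filter_upwards [self_mem_nhdsWithin] with z hz using key z hz
    · exact (hφ.continuous.continuousAt).comp (Complex.continuousAt_sqrt (by simp))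
  · exact key u hu

lemma hasDerivAt_comp_sq {F : ℂ → ℂ} (hF : Differentiable ℂ F) (c z : ℂ) :
    HasDerivAt (fun z : ℂ => F (z ^ 2 + c)) (deriv F (z ^ 2 + c) * (2 * z)) z := by
  have h : HasDerivAt (fun z : ℂ => z ^ 2 + c) (2 * z) z := by
    simpa using (hasDerivAt_pow 2 z).add_const c
  exact ((hF (z ^ 2 + c)).hasDerivAt).comp z h

/-- `cos (sqrt u)`. -/
noncomputable def Cq (u : ℂ) : ℂ := Complex.cos (Complex.sqrt u)

/-- `sin (sqrt u) / sqrt u`. -/
noncomputable def Sq (u : ℂ) : ℂ := -2 * deriv Cq u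

lemma Cq_diff : Differentiable ℂ Cq :=
  differentiable_even_sqrt Complex.differentiable_cos Complex.cos_neg

lemma Sq_diff : Differentiable ℂ Sq :=
  (Cq_diff.deriv).const_mul _

lemma Cq_sq (z : ℂ) : Cq (z ^ 2) = Complex.cos z :=
  even_congr Complex.cos_neg (sqrt_sq' _)

lemma deriv_Cq (u : ℂ) : deriv Cq u = -Sq u / 2 := by
  simp only [Sq]; ring

lemma Sq_sq (z : ℂ) : z * Sq (z ^ 2) = Complex.sin z := by
  have h1 : HasDerivAt (fun z : ℂ => Cq (z ^ 2)) (deriv Cq (z ^ 2) * (2 * z)) z := by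
    simpa using hasDerivAt_comp_sq Cq_diff 0 z
  have h2 : HasDerivAt (fun z : ℂ => Cq (z ^ 2)) (-Complex.sin z) z := by
    simp only [Cq_sq]; exact Complex.hasDerivAt_cos z
  have := h1.unique h2
  rw [deriv_Cq] at this
  linear_combination -this

lemma Sq_ode (u : ℂ) : Sq u + 2 * u * deriv Sq u = Cq u := by
  obtain ⟨z, rfl⟩ : ∃ z : ℂ, u = z ^ 2 := ⟨Complex.sqrt u, (sqrt_sq' u).symm⟩
  have h0 : HasDerivAt (fun z : ℂ => Sq (z ^ 2)) (deriv Sq (z ^ 2) * (2 * z)) z := by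
    simpa using hasDerivAt_comp_sq Sq_diff 0 z
  have h1 : HasDerivAt (fun z : ℂ => z * Sq (z ^ 2))
      (1 * Sq (z ^ 2) + z * (deriv Sq (z ^ 2) * (2 * z))) z := (hasDerivAt_id z).mul h0
  have h2 : HasDerivAt (fun z : ℂ => z * Sq (z ^ 2)) (Complex.cos z) z := by
    simp only [Sq_sq]; exact Complex.hasDerivAt_sin z
  have := h1.unique h2
  rw [Cq_sq]
  linear_combination this

lemma Cq_zero : Cq 0 = 1 := by simp [Cq]

lemma Sq_zero : Sq 0 = 1 := by
  have := Sq_ode 0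
  simpa [Cq_zero] using this

lemma deriv_Sq_zero : deriv Sq 0 = -1 / 6 := by
  have hd : Differentiable ℂ (deriv Sq) := Sq_diff.deriv
  have h1 : HasDerivAt (fun u : ℂ => Sq u + 2 * u * deriv Sq u)
      (deriv Sq 0 + (2 * 1 * deriv Sq 0 + 2 * 0 * deriv (deriv Sq) 0)) 0 :=
    (Sq_diff 0).hasDerivAt.add (((hasDerivAt_id (0 : ℂ)).const_mul 2).mul (hd 0).hasDerivAt)
  have h2 : HasDerivAt (fun u : ℂ => Sq u + 2 * u * deriv Sq u) (deriv Cq 0) 0 := by
    simp only [Sq_ode]; exact (Cq_diff 0).hasDerivAt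
  have := h1.unique h2
  rw [deriv_Cq, Sq_zero] at this
  linear_combination this / 3

lemma Sq_eq_zero {u : ℂ} (h : Sq u = 0) : ∃ k : ℕ, 1 ≤ k ∧ u = ((k : ℂ) * π) ^ 2 := by
  have h1 := Sq_sq (Complex.sqrt u)
  rw [sqrt_sq', h, mul_zero] at h1
  obtain ⟨k, hk⟩ := Complex.sin_eq_zero_iff.mp h1.symm
  have hu : u = ((k : ℂ) * π) ^ 2 := by rw [← hk, sqrt_sq']
  refine ⟨k.natAbs, ?_, ?_⟩
  · rcases Nat.eq_zero_or_pos k.natAbs with h0 | h0
    · have : k = 0 := Int.natAbs_eq_zero.mp h0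
      subst this
      simp at hu
      rw [hu, Sq_zero] at h
      exact absurd h one_ne_zero
    · exact h0
  · rw [hu, mul_pow, mul_pow]
    congr 1
    have : ((k.natAbs : ℤ) : ℂ) ^ 2 = (k : ℂ) ^ 2 := by
      have := Int.natAbs_sq k
      exact_mod_cast this
    simpa using this.symm

lemma node_ne_zero {k : ℕ} (hk : 1 ≤ k) : ((k : ℂ) * π) ≠ 0 := by
  refine mul_ne_zero ?_ (by exact_mod_cast Real.pi_ne_zero)
  exact_mod_cast (by omega : k ≠ 0)

lemma Sq_node {k : ℕ} (hk : 1 ≤ k) : Sq (((k : ℂ) * π) ^ 2) = 0 := by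
  have h := Sq_sq ((k : ℂ) * π)
  rw [Complex.sin_nat_mul_pi] at h
  exact (mul_eq_zero.mp h).resolve_left (node_ne_zero hk)

lemma Cq_node (k : ℕ) : Cq (((k : ℂ) * π) ^ 2) = (-1) ^ k := by
  rw [Cq_sq]
  have := Real.cos_nat_mul_pi k
  have h2 : ((Real.cos (k * π) : ℝ) : ℂ) = Complex.cos ((k : ℂ) * π) := by push_cast; rfl
  rw [← h2, this]; push_cast; rfl

lemma deriv_Sq_node {k : ℕ} (hk : 1 ≤ k) :
    deriv Sq (((k : ℂ) * π) ^ 2) = (-1) ^ k / (2 * ((k : ℂ) * π) ^ 2) := by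
  have h := Sq_ode (((k : ℂ) * π) ^ 2)
  rw [Sq_node hk, Cq_node] at h
  have hne := node_ne_zero hk
  rw [eq_div_iff (mul_ne_zero two_ne_zero (pow_ne_zero 2 hne))]
  linear_combination h

end Pool.Agent.P.MP_977360_an
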