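import Mathlib

/-!
A residue formula for the derivative of a quotient `Φ / S` with simple poles.
-/

open Complex Filter Topology Metric
open scoped Real

namespace Pool.Agent.P.MP_977360_an

lemma circleIntegral_two_poles {R : ℝ} {p q : ℂ} (hp : p ∈ ball (0 : ℂ) R)
    (hq : q ∈ ball (0 : ℂ) R) (hpq : p ≠ q) :
    (∮ z in C(0, R), ((z - q) ^ 2)⁻¹ * (z - p)⁻¹) = 0 := by
  have hR : 0 ≤ R := (pos_of_mem_ball hp).le
  have hne : ∀ w ∈ ball (0 : ℂ) R, ∀ z ∈ sphere (0 : ℂ) R, z - w ≠ 0 := fun w hw z hz h =>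
    sphere_disjoint_ball.ne_of_mem hz hw (sub_eq_zero.mp h)
  have hpq' : p - q ≠ 0 := sub_ne_zero.mpr hpq
  have c1 : ∀ w ∈ ball (0 : ℂ) R, ContinuousOn (fun z : ℂ => (z - w)⁻¹) (sphere 0 R) :=
    fun w hw => (continuous_id'.sub continuous_const).continuousOn.inv₀ (hne w hw)
  have c2 : ContinuousOn (fun z : ℂ => ((z - q) ^ 2)⁻¹) (sphere 0 R) :=
    ((continuous_id'.sub continuous_const).pow 2).continuousOn.inv₀
      fun z hz => pow_ne_zero 2 (hne q hq z hz)
  have e : (∮ z in C(0, R), ((z - q) ^ 2)⁻¹ * (z - p)⁻¹) =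
      ∮ z in C(0, R), (((p - q) ^ 2)⁻¹ * (z - p)⁻¹ - ((p - q) ^ 2)⁻¹ * (z - q)⁻¹) -
        (p - q)⁻¹ * ((z - q) ^ 2)⁻¹ := by
    refine circleIntegral.integral_congr hR fun z hz => ?_
    have h1 := hne p hp z hz
    have h2 := hne q hq z hz
    field_simp
    ring
  have i1 : CircleIntegrable (fun z : ℂ => ((p - q) ^ 2)⁻¹ * (z - p)⁻¹) 0 R :=
    (continuousOn_const.mul (c1 p hp)).circleIntegrable hR
  have i2 : CircleIntegrable (fun z : ℂ => ((p - q) ^ 2)⁻¹ * (z - q)⁻¹) 0 R :=
    (continuousOn_const.mul (c1 q hq)).circleIntegrable hR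
  have i3 : CircleIntegrable (fun z : ℂ => (p - q)⁻¹ * ((z - q) ^ 2)⁻¹) 0 R :=
    (continuousOn_const.mul c2).circleIntegrable hR
  have h4 : (∮ z : ℂ in C(0, R), ((z - q) ^ 2)⁻¹) = 0 := by
    simpa using! circleIntegral.integral_sub_zpow_of_ne (by decide : (-2 : ℤ) ≠ -1) 0 q R
  have i12 : CircleIntegrable
      (fun z : ℂ => ((p - q) ^ 2)⁻¹ * (z - p)⁻¹ - ((p - q) ^ 2)⁻¹ * (z - q)⁻¹) 0 R := i1.sub i2
  rw [e, circleIntegral.integral_sub i12 i3, circleIntegral.integral_sub i1 i2,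
    circleIntegral.integral_const_mul, circleIntegral.integral_const_mul,
    circleIntegral.integral_const_mul, circleIntegral.integral_sub_inv_of_mem_ball hp,
    circleIntegral.integral_sub_inv_of_mem_ball hq, h4]
  ring

theorem residue_deriv {Φ S : ℂ → ℂ} (hΦ : Differentiable ℂ Φ) (hS : Differentiable ℂ S) {R : ℝ}
    (T : Finset ℂ) (hT : ∀ u ∈ closedBall (0 : ℂ) R, S u = 0 → u ∈ T)
    (hT2 : ∀ p ∈ T, S p = 0 ∧ deriv S p ≠ 0 ∧ p ∈ ball (0 : ℂ) R) {q : ℂ}
    (hq : q ∈ ball (0 : ℂ) R) (hSq : S q ≠ 0) :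
    deriv (fun u => Φ u / S u) q + ∑ p ∈ T, (Φ p / deriv S p) / (q - p) ^ 2 =
      (2 * π * I : ℂ)⁻¹ * ∮ z in C(0, R), ((z - q) ^ 2)⁻¹ * (Φ z / S z) := by
  classical
  have hR : 0 ≤ R := (pos_of_mem_ball hq).le
  have hds : ∀ (F : ℂ → ℂ), Differentiable ℂ F → ∀ p, Differentiable ℂ (dslope F p) := by
    intro F hF p
    rw [← differentiableOn_univ] at hF ⊢
    exact (Complex.differentiableOn_dslope univ_mem).mpr hF
  set N : ℂ → ℂ := fun u => Φ u - ∑ p ∈ T, (Φ p / deriv S p) * dslope S p u with hN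
  have hNd : Differentiable ℂ N := by
    refine hΦ.sub ?_
    exact Differentiable.fun_sum fun p _ => (hds S hS p).const_mul _
  have hdsl : ∀ p ∈ T, ∀ u, u ≠ p → dslope S p u = S u / (u - p) := by
    intro p hp u hu
    rw [dslope_of_ne _ hu, slope_def_field, (hT2 p hp).1, sub_zero]
  have hN0 : ∀ p ∈ T, N p = 0 := by
    intro p hp
    simp only [hN]
    rw [Finset.sum_eq_single p]
    · rw [dslope_same, div_mul_cancel₀ _ (hT2 p hp).2.1, sub_self]
    · intro b hb hbp
      rw [hdsl b hb p hbp.symm, (hT2 p hp).1]; simp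
    · intro h; exact absurd hp h
  set G : ℂ → ℂ := fun u => if S u = 0 then deriv N u / deriv S u else N u / S u with hG
  have hGeq : ∀ u, S u ≠ 0 → G u = Φ u / S u - ∑ p ∈ T, (Φ p / deriv S p) * (u - p)⁻¹ := by
    intro u hu
    simp only [hG, if_neg hu, hN]
    rw [sub_div, Finset.sum_div]
    congr 1
    refine Finset.sum_congr rfl fun p hp => ?_
    have hup : u ≠ p := fun h => hu (h ▸ (hT2 p hp).1)
    rw [hdsl p hp u hup]
    field_simp
  have hGan : ∀ u ∈ closedBall (0 : ℂ) R, AnalyticAt ℂ G u := by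
    intro u hu
    by_cases h0 : S u = 0
    · have hp := hT u hu h0
      have hne : dslope S u u ≠ 0 := by rw [dslope_same]; exact (hT2 u hp).2.1
      have hev : ∀ᶠ v in 𝓝 u, dslope S u v ≠ 0 :=
        (hds S hS u).continuous.continuousAt.eventually_ne hne
      have : G =ᶠ[𝓝 u] fun v => dslope N u v / dslope S u v := by
        filter_upwards [hev] with v hv
        by_cases hvu : v = u
        · subst hvu
          simp only [hG, if_pos h0, dslope_same]
        · have h1 : S v = (v - u) * dslope S u v := by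
            have := sub_smul_dslope S u v
            rw [h0, sub_zero, smul_eq_mul] at this; exact this.symm
          have h2 : N v = (v - u) * dslope N u v := by
            have := sub_smul_dslope N u v
            rw [hN0 u hp, sub_zero, smul_eq_mul] at this; exact this.symm
          have h3 : v - u ≠ 0 := sub_ne_zero.mpr hvu
          have h4 : S v ≠ 0 := by rw [h1]; exact mul_ne_zero h3 hv
          simp only [hG, if_neg h4]
          rw [h1, h2, mul_div_mul_left _ _ h3]
      exact (((hds N hNd u).analyticAt u).div ((hds S hS u).analyticAt u) hne).congr this.symm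
    · have hev : ∀ᶠ v in 𝓝 u, S v ≠ 0 := hS.continuous.continuousAt.eventually_ne h0
      have : G =ᶠ[𝓝 u] fun v => N v / S v := by
        filter_upwards [hev] with v hv
        simp only [hG, if_neg hv]
      exact ((hNd.analyticAt u).div (hS.analyticAt u) h0).congr this.symm
  have hC := Complex.two_pi_I_inv_smul_circleIntegral_sub_sq_inv_smul_of_differentiable
    (U := {u | AnalyticAt ℂ G u}) (isOpen_analyticAt ℂ G) (c := 0) (w₀ := q) (R := R) (f := G)
    (fun u hu => hGan u hu) (fun u hu => hu.differentiableAt.differentiableWithinAt) hq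
  have hqp : ∀ p ∈ T, p ≠ q := fun p hp h => hSq (h ▸ (hT2 p hp).1)
  -- derivative of `G` at `q`
  have hder : deriv G q =
      deriv (fun u => Φ u / S u) q + ∑ p ∈ T, (Φ p / deriv S p) / (q - p) ^ 2 := by
    have hev : ∀ᶠ v in 𝓝 q, S v ≠ 0 := hS.continuous.continuousAt.eventually_ne hSq
    have e : G =ᶠ[𝓝 q] fun u => Φ u / S u - ∑ p ∈ T, (Φ p / deriv S p) * (u - p)⁻¹ := by
      filter_upwards [hev] with v hv using hGeq v hv
    rw [e.deriv_eq]
    have h1 : HasDerivAt (fun u => Φ u / S u) (deriv (fun u => Φ u / S u) q) q :=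
      ((hΦ q).div (hS q) hSq).hasDerivAt
    have h2 : HasDerivAt (fun u => ∑ p ∈ T, (Φ p / deriv S p) * (u - p)⁻¹)
        (∑ p ∈ T, (Φ p / deriv S p) * (-1 / (q - p) ^ 2)) q := by
      refine HasDerivAt.fun_sum fun p hp => HasDerivAt.const_mul _ ?_
      exact ((hasDerivAt_id q).sub_const p).inv (sub_ne_zero.mpr (hqp p hp).symm)
    rw [(h1.fun_sub h2).deriv, sub_eq_add_neg, ← Finset.sum_neg_distrib]
    congr 1
    refine Finset.sum_congr rfl fun p _ => ?_
    ring
  -- the integral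
  have hsph : ∀ z ∈ sphere (0 : ℂ) R, S z ≠ 0 := by
    intro z hz h
    have := (hT2 z (hT z (sphere_subset_closedBall hz) h)).2.2
    exact sphere_disjoint_ball.ne_of_mem hz this rfl
  have hne : ∀ w ∈ ball (0 : ℂ) R, ∀ z ∈ sphere (0 : ℂ) R, z - w ≠ 0 := fun w hw z hz h =>
    sphere_disjoint_ball.ne_of_mem hz hw (sub_eq_zero.mp h)
  have c2 : ContinuousOn (fun z : ℂ => ((z - q) ^ 2)⁻¹) (sphere 0 R) :=
    ((continuous_id'.sub continuous_const).pow 2).continuousOn.inv₀
      fun z hz => pow_ne_zero 2 (hne q hq z hz)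
  have i1 : CircleIntegrable (fun z : ℂ => ((z - q) ^ 2)⁻¹ * (Φ z / S z)) 0 R :=
    (c2.mul (hΦ.continuous.continuousOn.div hS.continuous.continuousOn hsph)).circleIntegrable hR
  have i2 : ∀ p ∈ T, CircleIntegrable
      (fun z : ℂ => (Φ p / deriv S p) * (((z - q) ^ 2)⁻¹ * (z - p)⁻¹)) 0 R := fun p hp =>
    (continuousOn_const.mul (c2.mul ((continuous_id'.sub continuous_const).continuousOn.inv₀
      (hne p (hT2 p hp).2.2)))).circleIntegrable hR
  have hint : (∮ z in C(0, R), ((z - q) ^ 2)⁻¹ • G z) =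
      ∮ z in C(0, R), ((z - q) ^ 2)⁻¹ * (Φ z / S z) := by
    have e : (∮ z in C(0, R), ((z - q) ^ 2)⁻¹ • G z) =
        ∮ z in C(0, R), ((z - q) ^ 2)⁻¹ * (Φ z / S z) -
          ∑ p ∈ T, (Φ p / deriv S p) * (((z - q) ^ 2)⁻¹ * (z - p)⁻¹) := by
      refine circleIntegral.integral_congr hR fun z hz => ?_
      simp only [smul_eq_mul]
      rw [hGeq z (hsph z hz), mul_sub, Finset.mul_sum]
      congr 1
      refine Finset.sum_congr rfl fun p _ => ?_
      ring
    have i3 : CircleIntegrable (fun z : ℂ =>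
        ∑ p ∈ T, (Φ p / deriv S p) * (((z - q) ^ 2)⁻¹ * (z - p)⁻¹)) 0 R := by
      have := CircleIntegrable.sum T i2
      convert this using 1
      funext z
      simp [Finset.sum_apply]
    rw [e, circleIntegral.integral_sub i1 i3, circleIntegral.integral_fun_sum i2]
    rw [Finset.sum_eq_zero, sub_zero]
    intro p hp
    rw [circleIntegral.integral_const_mul,
      circleIntegral_two_poles (hT2 p hp).2.2 hq (hqp p hp), mul_zero]
  rw [← hder, ← hC, hint, smul_eq_mul]

end Pool.Agent.P.MP_977360_an
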