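import Mathlib
import Pool.Agent.P.MP_977360_an.EvenSqrt
import Pool.Agent.P.MP_977360_an.Residue

/-!
The sign of the derivative of `Φ / Sq` for `Φ` interlacing with the zeros of `Sq`.
-/

open Complex Filter Topology Metric
open scoped Real

namespace Pool.Agent.P.MP_977360_an

lemma norm_exp_mul_I (s : ℂ) : ‖Complex.exp (s * I)‖ = Real.exp (-s.im) := by
  rw [Complex.norm_exp]; simp

lemma norm_exp_neg_mul_I (s : ℂ) : ‖Complex.exp (-s * I)‖ = Real.exp s.im := by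
  rw [Complex.norm_exp]; simp

lemma norm_cos_le_exp (s : ℂ) : ‖Complex.cos s‖ ≤ Real.exp |s.im| := by
  have h := Complex.two_cos s
  have h1 : ‖2 * Complex.cos s‖ ≤ Real.exp (-s.im) + Real.exp s.im := by
    rw [h, ← norm_exp_mul_I, ← norm_exp_neg_mul_I]; exact norm_add_le _ _
  have h2 : Real.exp (-s.im) ≤ Real.exp |s.im| := Real.exp_le_exp.mpr (neg_le_abs _)
  have h3 : Real.exp s.im ≤ Real.exp |s.im| := Real.exp_le_exp.mpr (le_abs_self _)
  rw [norm_mul] at h1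
  simp only [Complex.norm_ofNat] at h1
  linarith

lemma norm_sin_le_exp (s : ℂ) : ‖Complex.sin s‖ ≤ Real.exp |s.im| := by
  have := norm_cos_le_exp (π / 2 - s)
  rw [Complex.cos_pi_div_two_sub] at this
  simpa using this

lemma sinh_le_norm_sin (s : ℂ) :
    Real.exp |s.im| - Real.exp (-|s.im|) ≤ 2 * ‖Complex.sin s‖ := by
  have h := Complex.two_sin s
  have h1 : ‖2 * Complex.sin s‖ = ‖Complex.exp (-s * I) - Complex.exp (s * I)‖ := by
    rw [h, norm_mul, Complex.norm_I, mul_one]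
  rw [norm_mul] at h1
  simp only [Complex.norm_ofNat] at h1
  have h2 := abs_norm_sub_norm_le (Complex.exp (-s * I)) (Complex.exp (s * I))
  rw [norm_exp_neg_mul_I, norm_exp_mul_I s, ← h1] at h2
  rcases abs_cases s.im with ⟨h, _⟩ | ⟨h, _⟩
  · rw [h]; exact (le_abs_self _).trans h2
  · rw [h, neg_neg]
    have := (neg_le_abs _).trans h2
    linarith

lemma exp_le_norm_sin {s : ℂ} {N : ℕ} (hs : ‖s‖ = (N + 1 / 2) * π) :
    Real.exp |s.im| ≤ 4 * ‖Complex.sin s‖ := by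
  rcases le_total 1 |s.im| with h | h
  · have h1 := sinh_le_norm_sin s
    have h2 : 2 ≤ Real.exp |s.im| := by
      have := Real.add_one_le_exp |s.im|
      linarith
    have h3 : Real.exp (-|s.im|) ≤ 1 := Real.exp_le_one_iff.mpr (by linarith)
    linarith
  · have h1 : |(Complex.sin s).re| ≤ ‖Complex.sin s‖ := Complex.abs_re_le_norm _
    have h2 : (Complex.sin s).re = Real.sin s.re * Real.cosh s.im := by
      rw [Complex.sin_eq]
      simp [← Complex.ofReal_sin, ← Complex.ofReal_cos, ← Complex.ofReal_sinh,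
        ← Complex.ofReal_cosh]
    have h3 : |s.re| ≤ ‖s‖ := Complex.abs_re_le_norm _
    have h4 : ‖s‖ ≤ |s.re| + |s.im| := Complex.norm_le_abs_re_add_abs_im _
    set δ : ℝ := ‖s‖ - |s.re| with hδ
    have h5 : |Real.sin s.re| = |Real.cos δ| := by
      have e1 : |Real.sin s.re| = |Real.sin (|s.re|)| := by
        rcases abs_cases s.re with ⟨h, _⟩ | ⟨h, _⟩
        · rw [h]
        · rw [h, Real.sin_neg, abs_neg]
      have e2 : |s.re| = (π / 2 - δ) + N * π := by rw [hδ, hs]; ring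
      rw [e1, e2, Real.sin_add_nat_mul_pi, Real.sin_pi_div_two_sub, abs_mul, abs_pow, abs_neg,
        abs_one, one_pow, one_mul]
    have h6 : 1 / 2 ≤ Real.cos δ := by
      have := Real.one_sub_sq_div_two_le_cos (x := δ)
      have h0 : 0 ≤ δ := by linarith
      have h1 : δ ≤ 1 := by linarith
      nlinarith
    have h7 : Real.exp |s.im| ≤ 2 * Real.cosh s.im := by
      rw [← Real.cosh_abs, Real.cosh_eq]
      have := Real.exp_pos (-|s.im|)
      linarith
    have h8 : 0 < Real.cosh s.im := Real.cosh_pos _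
    rw [h2, abs_mul, h5, abs_of_pos h8, abs_of_pos (by linarith : 0 < Real.cos δ)] at h1
    nlinarith

lemma Sq_sq_ne_zero {a : ℝ} (ha0 : 0 ≤ a) (ha : a < π) : Sq ((a : ℂ) ^ 2) ≠ 0 := by
  intro h
  have hpi := Real.pi_pos
  obtain ⟨k, hk, hk2⟩ := Sq_eq_zero h
  have h1 : a ^ 2 = ((k : ℝ) * π) ^ 2 := by exact_mod_cast hk2
  have hk' : (1 : ℝ) ≤ k := by exact_mod_cast hk
  have h2 : a = (k : ℝ) * π := (pow_left_inj₀ ha0 (by positivity) two_ne_zero).mp h1
  nlinarith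

theorem herglotz {Φ : ℂ → ℂ} (hΦ : Differentiable ℂ Φ) {K : ℝ}
    (hK : ∀ s : ℂ, ‖Φ (s ^ 2)‖ ≤ K * Real.exp |s.im|)
    (hsign : ∀ k : ℕ, 1 ≤ k → 0 ≤ ((-1) ^ k * Φ (((k : ℂ) * π) ^ 2)).re)
    {a : ℝ} (ha0 : 0 ≤ a) (ha : a < π) :
    (deriv (fun u => Φ u / Sq u) ((a : ℂ) ^ 2)).re ≤ 0 := by
  classical
  have hK0 : 0 ≤ K := by
    have := (norm_nonneg _).trans (hK 0)
    simpa using this
  have hpi := Real.pi_pos
  have hpi3 := Real.pi_gt_three
  have hSq : Sq ((a : ℂ) ^ 2) ≠ 0 := Sq_sq_ne_zero ha0 ha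
  have main : ∀ N : ℕ, 1 ≤ N →
      (deriv (fun u => Φ u / Sq u) ((a : ℂ) ^ 2)).re ≤ 16 * K / ((N + 1 / 2) * π) := by
    intro N hN
    have hN' : (1 : ℝ) ≤ N := by exact_mod_cast hN
    set r : ℝ := (N + 1 / 2) * π with hr
    have hr1 : 3 / 2 * π ≤ r := by rw [hr]; nlinarith
    have hr0 : 0 < r := by linarith
    set T : Finset ℂ := (Finset.Icc 1 N).image fun k : ℕ => ((k : ℂ) * π) ^ 2 with hT
    have hnorm : ∀ k : ℕ, ‖((k : ℂ) * π) ^ 2‖ = ((k : ℝ) * π) ^ 2 := by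
      intro k
      rw [norm_pow, norm_mul, Complex.norm_natCast, Complex.norm_real, Real.norm_eq_abs,
        abs_of_pos hpi]
    have hT1 : ∀ u ∈ closedBall (0 : ℂ) (r ^ 2), Sq u = 0 → u ∈ T := by
      intro u hu h0
      obtain ⟨k, hk, rfl⟩ := Sq_eq_zero h0
      rw [mem_closedBall_zero_iff, hnorm] at hu
      have h1 : (k : ℝ) * π ≤ r := by
        exact (pow_le_pow_iff_left₀ (by positivity) hr0.le two_ne_zero).mp hu
      have h2 : (k : ℝ) ≤ N + 1 / 2 := le_of_mul_le_mul_right h1 hpi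
      have h3 : k ≤ N := by
        by_contra hc
        have : N + 1 ≤ k := by omega
        have : (N : ℝ) + 1 ≤ k := by exact_mod_cast this
        linarith
      exact Finset.mem_image.mpr ⟨k, Finset.mem_Icc.mpr ⟨hk, h3⟩, rfl⟩
    have hT2 : ∀ p ∈ T, Sq p = 0 ∧ deriv Sq p ≠ 0 ∧ p ∈ ball (0 : ℂ) (r ^ 2) := by
      intro p hp
      obtain ⟨k, hk, rfl⟩ := Finset.mem_image.mp hp
      obtain ⟨hk1, hk2⟩ := Finset.mem_Icc.mp hk
      refine ⟨Sq_node hk1, ?_, ?_⟩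
      · rw [deriv_Sq_node hk1]
        exact div_ne_zero (pow_ne_zero _ (by norm_num))
          (mul_ne_zero two_ne_zero (pow_ne_zero 2 (node_ne_zero hk1)))
      · rw [mem_ball_zero_iff, hnorm]
        have : (k : ℝ) ≤ N := by exact_mod_cast hk2
        have h1 : (k : ℝ) * π < r := by rw [hr]; nlinarith
        exact pow_lt_pow_left₀ h1 (by positivity) two_ne_zero
    have hqn : ‖(a : ℂ) ^ 2‖ = a ^ 2 := by
      rw [norm_pow, Complex.norm_real, Real.norm_eq_abs, sq_abs]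
    have ha2 : a ^ 2 ≤ r ^ 2 / 2 := by nlinarith
    have hq : (a : ℂ) ^ 2 ∈ ball (0 : ℂ) (r ^ 2) := by
      rw [mem_ball_zero_iff, hqn]; nlinarith
    have hres := residue_deriv hΦ Sq_diff T hT1 hT2 hq hSq
    have hsum : 0 ≤ (∑ p ∈ T, (Φ p / deriv Sq p) / ((a : ℂ) ^ 2 - p) ^ 2).re := by
      rw [Complex.re_sum]
      refine Finset.sum_nonneg fun p hp => ?_
      obtain ⟨k, hk, rfl⟩ := Finset.mem_image.mp hp
      obtain ⟨hk1, hk2⟩ := Finset.mem_Icc.mp hk
      have e : Φ (((k : ℂ) * π) ^ 2) / deriv Sq (((k : ℂ) * π) ^ 2) /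
          ((a : ℂ) ^ 2 - ((k : ℂ) * π) ^ 2) ^ 2 =
          ((2 * ((k : ℝ) * π) ^ 2 / (a ^ 2 - ((k : ℝ) * π) ^ 2) ^ 2 : ℝ) : ℂ) *
            ((-1) ^ k * Φ (((k : ℂ) * π) ^ 2)) := by
        rw [deriv_Sq_node hk1]
        push_cast
        rcases neg_one_pow_eq_or ℂ k with h | h <;> rw [h] <;> field_simp
      rw [e, Complex.re_ofReal_mul]
      exact mul_nonneg (by positivity) (hsign k hk1)
    have hbound : ‖(2 * π * I : ℂ)⁻¹ *
        ∮ z in C(0, r ^ 2), ((z - (a : ℂ) ^ 2) ^ 2)⁻¹ * (Φ z / Sq z)‖ ≤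
        r ^ 2 * (16 * K / r ^ 3) := by
      refine circleIntegral.norm_two_pi_i_inv_smul_integral_le_of_norm_le_const
        (by positivity) fun z hz => ?_
      rw [mem_sphere_zero_iff_norm] at hz
      obtain ⟨s, rfl⟩ : ∃ s : ℂ, z = s ^ 2 := ⟨Complex.sqrt z, (sqrt_sq' z).symm⟩
      have hs : ‖s‖ = r := by
        rw [norm_pow] at hz
        exact (pow_left_inj₀ (norm_nonneg _) hr0.le two_ne_zero).mp hz
      have h1 := exp_le_norm_sin hs
      have h2 : ‖Complex.sin s‖ = r * ‖Sq (s ^ 2)‖ := by rw [← Sq_sq, norm_mul, hs]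
      have h3 : 0 < ‖Sq (s ^ 2)‖ := by
        have := Real.exp_pos |s.im|
        rw [h2] at h1
        by_contra hc
        have : ‖Sq (s ^ 2)‖ = 0 := le_antisymm (not_lt.mp hc) (norm_nonneg _)
        rw [this] at h1
        linarith
      have h4 : ‖Φ (s ^ 2) / Sq (s ^ 2)‖ ≤ 4 * K * r := by
        rw [norm_div, div_le_iff₀ h3]
        calc ‖Φ (s ^ 2)‖ ≤ K * Real.exp |s.im| := hK s
          _ ≤ K * (4 * (r * ‖Sq (s ^ 2)‖)) := by rw [← h2]; gcongr
          _ = 4 * K * r * ‖Sq (s ^ 2)‖ := by ring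
      have h5 : r ^ 2 / 2 ≤ ‖s ^ 2 - (a : ℂ) ^ 2‖ := by
        have := norm_sub_norm_le (s ^ 2) ((a : ℂ) ^ 2)
        rw [hz, hqn] at this
        linarith
      have h6 : ‖((s ^ 2 - (a : ℂ) ^ 2) ^ 2)⁻¹‖ ≤ ((r ^ 2 / 2) ^ 2)⁻¹ := by
        rw [norm_inv, norm_pow]
        gcongr
      rw [norm_mul]
      calc _ ≤ ((r ^ 2 / 2) ^ 2)⁻¹ * (4 * K * r) := by gcongr
        _ = 16 * K / r ^ 3 := by field_simp; ring
    rw [← hres] at hbound
    have h7 := (Complex.re_le_norm _).trans hbound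
    rw [Complex.add_re] at h7
    have h8 : r ^ 2 * (16 * K / r ^ 3) = 16 * K / r := by field_simp
    linarith
  have hlim : Tendsto (fun N : ℕ => 16 * K / ((N + 1 / 2) * π)) atTop (𝓝 0) := by
    refine Tendsto.div_atTop tendsto_const_nhds ?_
    exact (tendsto_atTop_add_const_right _ _ tendsto_natCast_atTop_atTop).atTop_mul_const hpi
  refine ge_of_tendsto hlim ?_
  filter_upwards [eventually_ge_atTop 1] with N hN using main N hN

end Pool.Agent.P.MP_977360_an
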