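import Mathlib
import Pool.Agent.P.MP_977360_an.Herglotz

/-!
The upper bound for the functional `f ↦ -f''(0) - A f(0)` and the Phragmen-Lindelof estimate.
-/

open Complex Filter Topology Metric Asymptotics
open scoped Real

namespace Pool.Agent.P.MP_977360_an

noncomputable def Aq (a : ℝ) : ℂ := -2 * deriv Sq ((a : ℂ) ^ 2) / Sq ((a : ℂ) ^ 2)

noncomputable def Bq (a : ℝ) : ℂ := Sq ((a : ℂ) ^ 2) - Aq a * Cq ((a : ℂ) ^ 2)

lemma Sq_ofReal_sq (a : ℝ) : Sq ((a : ℂ) ^ 2) = (Real.sinc a : ℝ) := by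
  by_cases h : a = 0
  · subst h; simp [Sq_zero]
  · rw [Real.sinc_of_ne_zero h]
    have := Sq_sq (a : ℂ)
    have h' : (a : ℂ) ≠ 0 := by exact_mod_cast h
    push_cast
    rw [← this]; field_simp

lemma sinc_pos {a : ℝ} (ha0 : 0 ≤ a) (ha : a < π) : 0 < Real.sinc a := by
  rcases ha0.eq_or_lt with h | h
  · subst h; simp
  · rw [Real.sinc_of_ne_zero h.ne']
    exact div_pos (Real.sin_pos_of_pos_of_lt_pi h ha) h

lemma deriv2_comp_sq {P : ℂ → ℂ} (hP : Differentiable ℂ P) (c : ℂ) :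
    deriv (deriv fun z : ℂ => P (z ^ 2 + c)) 0 = 2 * deriv P c := by
  have e : (deriv fun z : ℂ => P (z ^ 2 + c)) = fun z => deriv P (z ^ 2 + c) * (2 * z) := by
    funext z; exact (hasDerivAt_comp_sq hP c z).deriv
  rw [e]
  have h1 := (hasDerivAt_comp_sq hP.deriv c 0).mul ((hasDerivAt_id (0 : ℂ)).const_mul 2)
  have h2 : HasDerivAt (fun z : ℂ => deriv P (z ^ 2 + c) * (2 * z)) (2 * deriv P c) 0 :=
    HasDerivAt.congr_deriv h1 (by simp [mul_comm])
  exact h2.deriv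

lemma hasDerivAt_comp_neg' {F : ℂ → ℂ} (hF : Differentiable ℂ F) (z : ℂ) :
    HasDerivAt (fun z => F (-z)) (-deriv F (-z)) z :=
  HasDerivAt.congr_deriv ((hF (-z)).hasDerivAt.comp z (hasDerivAt_neg z)) (by simp)

lemma abs_im_le_of_sq {s t : ℂ} {a : ℝ} (ha : 0 ≤ a) (h : t ^ 2 = s ^ 2 - (a : ℂ) ^ 2) :
    |t.im| ≤ |s.im| + a := by
  have h1 : ‖t - s‖ * ‖t + s‖ = a * a := by
    rw [← norm_mul]
    have : (t - s) * (t + s) = -((a * a : ℝ) : ℂ) := by push_cast; linear_combination h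
    rw [this, norm_neg, Complex.norm_real, Real.norm_eq_abs, abs_of_nonneg (by positivity)]
  have h2 : ‖t - s‖ ≤ a ∨ ‖t + s‖ ≤ a := by
    by_contra hc
    push Not at hc
    have := mul_lt_mul'' hc.1 hc.2 ha ha
    linarith
  rcases h2 with h2 | h2
  · have := (Complex.abs_im_le_norm (t - s)).trans h2
    rw [Complex.sub_im] at this
    have h3 := abs_add_le s.im (t.im - s.im)
    rw [add_sub_cancel] at h3
    linarith
  · have := (Complex.abs_im_le_norm (t + s)).trans h2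
    rw [Complex.add_im] at this
    have h3 := abs_sub (t.im + s.im) s.im
    rw [add_sub_cancel_right] at h3
    linarith

theorem upper_one {F : ℂ → ℂ} (hF : Differentiable ℂ F) {M : ℝ}
    (hM : ∀ z, ‖F z‖ ≤ M * Real.exp |z.im|) {a : ℝ} (ha0 : 0 ≤ a) (ha : a < π) :
    ‖-deriv (deriv F) 0 - Aq a * F 0‖ ≤ M * (Bq a).re := by
  have hpi := Real.pi_pos
  have hM0 : 0 ≤ M := by
    have := (norm_nonneg _).trans (hM 0)
    simpa using this
  set Fe : ℂ → ℂ := fun z => (F z + F (-z)) / 2 with hFe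
  have hFn : Differentiable ℂ fun z => F (-z) := hF.comp differentiable_neg
  have hFed : Differentiable ℂ Fe := (hF.add hFn).div_const 2
  have hFee : ∀ z, Fe (-z) = Fe z := fun z => by simp only [hFe, neg_neg, add_comm]
  have hFeM : ∀ z, ‖Fe z‖ ≤ M * Real.exp |z.im| := by
    intro z
    have h1 := hM z
    have h2 := hM (-z)
    rw [Complex.neg_im, abs_neg] at h2
    have h3 := norm_add_le (F z) (F (-z))
    simp only [hFe, norm_div, Complex.norm_ofNat]
    linarith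
  set P : ℂ → ℂ := fun u => Fe (Complex.sqrt u) with hP
  have hPd : Differentiable ℂ P := differentiable_even_sqrt hFed hFee
  have hPsq : ∀ z, P (z ^ 2) = Fe z := fun z => even_congr hFee (sqrt_sq' _)
  have hP0 : P 0 = F 0 := by simp [hP, hFe]
  have hP1 : 2 * deriv P 0 = deriv (deriv F) 0 := by
    rw [← deriv2_comp_sq hPd 0]
    simp only [add_zero, hPsq]
    have e : deriv Fe = fun z => (deriv F z - deriv F (-z)) / 2 := by
      funext z
      have h1 := hasDerivAt_comp_neg' hF z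
      have h2 : HasDerivAt Fe ((deriv F z + -deriv F (-z)) / 2) z :=
        ((hF z).hasDerivAt.add h1).div_const 2
      rw [h2.deriv, sub_eq_add_neg]
    rw [e]
    have h1 := hasDerivAt_comp_neg' hF.deriv 0
    have h2 := ((hF.deriv 0).hasDerivAt.sub h1).div_const 2
    have h3 : HasDerivAt (fun z => (deriv F z - deriv F (-z)) / 2) (deriv (deriv F) 0) 0 :=
      HasDerivAt.congr_deriv h2 (by rw [neg_zero]; ring)
    exact h3.deriv
  set L : ℂ := -deriv (deriv F) 0 - Aq a * F 0 with hL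
  obtain ⟨c, hc1, hc2⟩ := Complex.exists_norm_eq_mul_self L
  set Φ : ℂ → ℂ := fun u => M * Cq u - c * P (u - (a : ℂ) ^ 2) with hΦ
  have hPs : Differentiable ℂ fun u => P (u - (a : ℂ) ^ 2) :=
    hPd.comp (differentiable_id.sub_const _)
  have hΦd : Differentiable ℂ Φ := (Cq_diff.const_mul _).sub (hPs.const_mul _)
  have hK : ∀ s : ℂ, ‖Φ (s ^ 2)‖ ≤ (M + M * Real.exp a) * Real.exp |s.im| := by
    intro s
    have h1 : ‖(M : ℂ) * Cq (s ^ 2)‖ ≤ M * Real.exp |s.im| := by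
      rw [norm_mul, Complex.norm_real, Real.norm_eq_abs, abs_of_nonneg hM0, Cq_sq]
      exact mul_le_mul_of_nonneg_left (norm_cos_le_exp s) hM0
    have h2 : ‖c * P (s ^ 2 - (a : ℂ) ^ 2)‖ ≤ M * Real.exp a * Real.exp |s.im| := by
      rw [norm_mul, hc1, one_mul]
      refine (hFeM _).trans ?_
      rw [mul_assoc, ← Real.exp_add]
      have := abs_im_le_of_sq ha0 (sqrt_sq' (s ^ 2 - (a : ℂ) ^ 2))
      gcongr
      linarith
    have h3 := norm_sub_le ((M : ℂ) * Cq (s ^ 2)) (c * P (s ^ 2 - (a : ℂ) ^ 2))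
    simp only [hΦ]
    linarith
  have hsign : ∀ k : ℕ, 1 ≤ k → 0 ≤ ((-1) ^ k * Φ (((k : ℂ) * π) ^ 2)).re := by
    intro k hk
    have hk' : (1 : ℝ) ≤ k := by exact_mod_cast hk
    have hpos : 0 ≤ ((k : ℝ) * π) ^ 2 - a ^ 2 := by
      have : a ≤ (k : ℝ) * π := by nlinarith
      nlinarith
    have e : ((k : ℂ) * π) ^ 2 - (a : ℂ) ^ 2 =
        ((Real.sqrt (((k : ℝ) * π) ^ 2 - a ^ 2) : ℝ) : ℂ) ^ 2 := by
      rw [← Complex.ofReal_pow (Real.sqrt _), Real.sq_sqrt hpos]; push_cast; ring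
    have h1 : ‖P (((k : ℂ) * π) ^ 2 - (a : ℂ) ^ 2)‖ ≤ M := by
      rw [e, hPsq]
      simpa using hFeM ((Real.sqrt (((k : ℝ) * π) ^ 2 - a ^ 2) : ℝ) : ℂ)
    have e2 : (-1) ^ k * Φ (((k : ℂ) * π) ^ 2) =
        M - (-1) ^ k * c * P (((k : ℂ) * π) ^ 2 - (a : ℂ) ^ 2) := by
      simp only [hΦ, Cq_node]
      rcases neg_one_pow_eq_or ℂ k with h | h <;> rw [h] <;> ring
    have h2 : ‖(-1) ^ k * c * P (((k : ℂ) * π) ^ 2 - (a : ℂ) ^ 2)‖ ≤ M := by
      rw [norm_mul, norm_mul, hc1, norm_pow, norm_neg, norm_one, one_pow, one_mul, one_mul]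
      exact h1
    rw [e2, Complex.sub_re, Complex.ofReal_re]
    have := (Complex.re_le_norm _).trans h2
    linarith
  have hH := herglotz hΦd hK hsign ha0 ha
  have hS := Sq_sq_ne_zero ha0 ha
  have hΦ' : HasDerivAt Φ (M * (-Sq ((a : ℂ) ^ 2) / 2) - c * deriv P 0) ((a : ℂ) ^ 2) := by
    have h1 : HasDerivAt (fun u => P (u - (a : ℂ) ^ 2)) (deriv P 0) ((a : ℂ) ^ 2) := by
      have : HasDerivAt P (deriv P 0) ((a : ℂ) ^ 2 - (a : ℂ) ^ 2) := by
        rw [sub_self]; exact (hPd 0).hasDerivAt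
      exact this.comp_sub_const _ _
    rw [← deriv_Cq]
    exact ((Cq_diff _).hasDerivAt.const_mul _).sub (h1.const_mul _)
  have hq := (hΦ'.fun_div (Sq_diff _).hasDerivAt hS).deriv
  have key : (M : ℂ) * Bq a - (‖L‖ : ℂ) =
      ((-2 * Real.sinc a : ℝ) : ℂ) * deriv (fun u => Φ u / Sq u) ((a : ℂ) ^ 2) := by
    rw [hq, hc2, hL, ← hP1, ← hP0]
    push_cast
    rw [← Sq_ofReal_sq]
    simp only [hΦ, Bq, Aq, sub_self]
    field_simp
    ring
  have h1 := congrArg Complex.re key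
  rw [Complex.sub_re, Complex.re_ofReal_mul, Complex.re_ofReal_mul, Complex.ofReal_re] at h1
  have h2 := sinc_pos ha0 ha
  nlinarith

lemma pl_upper {F : ℂ → ℂ} (hF : Differentiable ℂ F) {σ M : ℝ} (hσ : 0 ≤ σ)
    (hexp : ∀ ε : ℝ, 0 < ε → ∃ C : ℝ, ∀ z, ‖F z‖ ≤ C * Real.exp ((σ + ε) * ‖z‖))
    (hM : ∀ x : ℝ, ‖F x‖ ≤ M) {z : ℂ} (hz : 0 ≤ z.im) : ‖F z‖ ≤ M * Real.exp (σ * z.im) := by
  have main : ∀ ε : ℝ, 0 < ε → ‖F z‖ ≤ M * Real.exp ((σ + ε) * z.im) := by
    intro ε hε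
    obtain ⟨C, hC⟩ := hexp ε hε
    have hC0 : 0 ≤ C := by
      have := (norm_nonneg _).trans (hC 0)
      simpa using this
    set g : ℂ → ℂ := fun w => F (I * w) * Complex.exp (-((σ + ε : ℝ) : ℂ) * w) with hg
    have hgn : ∀ w, ‖g w‖ = ‖F (I * w)‖ * Real.exp (-(σ + ε) * w.re) := by
      intro w
      simp only [hg, norm_mul, Complex.norm_exp]
      congr 2
      rw [← Complex.ofReal_neg, Complex.re_ofReal_mul]
    have hgd : Differentiable ℂ g := by
      simp only [hg]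
      fun_prop
    have h1 : ‖g (-I * z)‖ ≤ M := by
      refine PhragmenLindelof.right_half_plane_of_bounded_on_real hgd.diffContOnCl ?_ ?_ ?_ ?_
      · refine ⟨1, by norm_num, σ + ε, IsBigO.of_bound C ?_⟩
        rw [eventually_inf_principal]
        refine Eventually.of_forall fun w hw => ?_
        have hw' : 0 < w.re := hw
        rw [hgn, Real.rpow_one, Real.norm_eq_abs, abs_of_pos (Real.exp_pos _)]
        have h2 := hC (I * w)
        rw [norm_mul, Complex.norm_I, one_mul] at h2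
        have h3 : Real.exp (-(σ + ε) * w.re) ≤ 1 := Real.exp_le_one_iff.mpr (by nlinarith)
        calc _ ≤ ‖F (I * w)‖ * 1 := by gcongr
          _ ≤ _ := by rw [mul_one]; exact h2
      · refine ⟨C, ?_⟩
        rw [eventually_map]
        filter_upwards [eventually_ge_atTop 0] with x hx
        rw [hgn, Complex.ofReal_re]
        have h2 := hC (I * x)
        rw [norm_mul, Complex.norm_I, one_mul, Complex.norm_real, Real.norm_eq_abs,
          abs_of_nonneg hx] at h2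
        calc _ ≤ C * Real.exp ((σ + ε) * x) * Real.exp (-(σ + ε) * x) := by gcongr
          _ = C := by
            rw [mul_assoc, ← Real.exp_add, show (σ + ε) * x + -(σ + ε) * x = 0 by ring]; simp
      · intro x
        rw [hgn]
        have e : I * (x * I) = ((-x : ℝ) : ℂ) := by
          push_cast; linear_combination (x : ℂ) * Complex.I_mul_I
        rw [e]
        simpa using hM (-x)
      · simpa using hz
    rw [hgn] at h1
    have e : I * (-I * z) = z := by linear_combination (-z) * Complex.I_mul_I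
    have e2 : (-I * z).re = z.im := by simp
    rw [e, e2] at h1
    calc ‖F z‖ = ‖F z‖ * Real.exp (-(σ + ε) * z.im) * Real.exp ((σ + ε) * z.im) := by
          rw [mul_assoc, ← Real.exp_add, show -(σ + ε) * z.im + (σ + ε) * z.im = 0 by ring]; simp
      _ ≤ _ := by gcongr
  have hlim : Tendsto (fun ε : ℝ => M * Real.exp ((σ + ε) * z.im)) (𝓝[>] 0)
      (𝓝 (M * Real.exp (σ * z.im))) := by
    refine Tendsto.mono_left ?_ nhdsWithin_le_nhds
    exact Continuous.tendsto' (by fun_prop) _ _ (by simp)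
  refine ge_of_tendsto hlim ?_
  filter_upwards [self_mem_nhdsWithin] with ε hε using main ε hε

theorem pl_bound {F : ℂ → ℂ} (hF : Differentiable ℂ F) {σ M : ℝ} (hσ : 0 ≤ σ)
    (hexp : ∀ ε : ℝ, 0 < ε → ∃ C : ℝ, ∀ z, ‖F z‖ ≤ C * Real.exp ((σ + ε) * ‖z‖))
    (hM : ∀ x : ℝ, ‖F x‖ ≤ M) (z : ℂ) : ‖F z‖ ≤ M * Real.exp (σ * |z.im|) := by
  rcases le_total 0 z.im with h | h
  · rw [abs_of_nonneg h]; exact pl_upper hF hσ hexp hM h
  · rw [abs_of_nonpos h]
    have := pl_upper (F := fun z => F (-z)) (hF.comp differentiable_neg) hσ (M := M)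
      (fun ε hε => (hexp ε hε).imp fun C hC w => by simpa using hC (-w))
      (fun x => by simpa using hM (-x)) (z := -z) (by simpa using h)
    simpa using this

/-- The scaled and translated upper bound. -/
theorem upper_sigma {F : ℂ → ℂ} (hF : Differentiable ℂ F) {σ M : ℝ} (hσ : 0 < σ)
    (hexp : ∀ ε : ℝ, 0 < ε → ∃ C : ℝ, ∀ z, ‖F z‖ ≤ C * Real.exp ((σ + ε) * ‖z‖))
    (hM : ∀ x : ℝ, ‖F x‖ ≤ M) {a : ℝ} (ha0 : 0 ≤ a) (ha : a < π) (lam : ℂ) (x : ℝ) :
    ‖-deriv (deriv F) x + lam * F x‖ ≤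
      (‖lam + (σ : ℂ) ^ 2 * Aq a‖ + σ ^ 2 * (Bq a).re) * M := by
  have hσ' : (σ : ℂ) ≠ 0 := by exact_mod_cast hσ.ne'
  set G : ℂ → ℂ := fun z => F (x + z / σ) with hG
  have hin : ∀ z : ℂ, HasDerivAt (fun z : ℂ => (x : ℂ) + z / σ) (1 / σ) z := fun z =>
    ((hasDerivAt_id z).div_const _).const_add _
  have hGd : Differentiable ℂ G := fun z =>
    ((hF _).hasDerivAt.comp z (hin z)).differentiableAt
  have hG1 : deriv G = fun z => deriv F (x + z / σ) * (1 / σ) := by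
    funext z; exact ((hF _).hasDerivAt.comp z (hin z)).deriv
  have hG2 : deriv (deriv G) 0 = deriv (deriv F) x * (1 / σ) * (1 / σ) := by
    rw [hG1]
    have := (((hF.deriv _).hasDerivAt.comp 0 (hin 0)).mul_const (1 / (σ : ℂ))).deriv
    simpa using this
  have hGM : ∀ z, ‖G z‖ ≤ M * Real.exp |z.im| := by
    intro z
    have := pl_bound hF hσ.le hexp hM (x + z / σ)
    rw [Complex.add_im, Complex.ofReal_im, zero_add, Complex.div_ofReal_im, abs_div,
      abs_of_pos hσ, mul_div_cancel₀ _ hσ.ne'] at this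
    exact this
  have h1 := upper_one hGd hGM ha0 ha
  have hG0 : G 0 = F x := by simp [hG]
  rw [hG2, hG0] at h1
  have e : -deriv (deriv F) x + lam * F x = (lam + (σ : ℂ) ^ 2 * Aq a) * F x +
      (σ : ℂ) ^ 2 * (-(deriv (deriv F) x * (1 / σ) * (1 / σ)) - Aq a * F x) := by
    field_simp
    ring
  rw [e]
  refine (norm_add_le _ _).trans ?_
  rw [norm_mul, norm_mul, norm_pow, Complex.norm_real, Real.norm_eq_abs, sq_abs, add_mul]
  refine add_le_add (mul_le_mul_of_nonneg_left (hM x) (norm_nonneg _)) ?_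
  calc _ ≤ σ ^ 2 * (M * (Bq a).re) := by gcongr
    _ = _ := by ring

end Pool.Agent.P.MP_977360_an
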