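import Mathlib
import Pool.Agent.P.MP_977360_an.Upper

/-!
The extremal functions, and explicit values of the constants.
-/

open Complex Filter Topology Metric Set
open scoped Real

namespace Pool.Agent.P.MP_977360_an

/-- The extremal function `cos s + i β (sin s) / s`, `s = sqrt (σ ^ 2 z ^ 2 + a ^ 2)`. -/
noncomputable def Extr (σ a β : ℝ) (z : ℂ) : ℂ :=
  Cq ((σ : ℂ) ^ 2 * z ^ 2 + (a : ℂ) ^ 2) + I * β * Sq ((σ : ℂ) ^ 2 * z ^ 2 + (a : ℂ) ^ 2)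

lemma Extr_diff (σ a β : ℝ) : Differentiable ℂ (Extr σ a β) := by
  have h : Differentiable ℂ fun z : ℂ => (σ : ℂ) ^ 2 * z ^ 2 + (a : ℂ) ^ 2 := by fun_prop
  exact (Cq_diff.comp h).add ((Sq_diff.comp h).const_mul _)

lemma exists_Sq_bound : ∃ K : ℝ, 0 ≤ K ∧ ∀ s : ℂ, ‖Sq (s ^ 2)‖ ≤ K * Real.exp ‖s‖ := by
  obtain ⟨K, hK⟩ := (isCompact_closedBall (0 : ℂ) 1).exists_bound_of_continuousOn
    Sq_diff.continuous.continuousOn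
  refine ⟨max K 1, le_max_of_le_right zero_le_one, fun s => ?_⟩
  have he : 1 ≤ Real.exp ‖s‖ := Real.one_le_exp (norm_nonneg _)
  rcases le_total ‖s‖ 1 with h | h
  · have h1 : ‖Sq (s ^ 2)‖ ≤ K := hK _ (by
      rw [mem_closedBall_zero_iff, norm_pow]; exact pow_le_one₀ (norm_nonneg _) h)
    calc ‖Sq (s ^ 2)‖ ≤ max K 1 * 1 := by rw [mul_one]; exact h1.trans (le_max_left _ _)
      _ ≤ _ := by gcongr
  · have h1 : ‖s‖ * ‖Sq (s ^ 2)‖ ≤ Real.exp ‖s‖ := by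
      rw [← norm_mul, Sq_sq]
      exact (norm_sin_le_exp s).trans (Real.exp_le_exp.mpr (Complex.abs_im_le_norm s))
    have h2 : ‖Sq (s ^ 2)‖ ≤ Real.exp ‖s‖ := by
      have := norm_nonneg (Sq (s ^ 2))
      nlinarith
    calc ‖Sq (s ^ 2)‖ ≤ 1 * Real.exp ‖s‖ := by rw [one_mul]; exact h2
      _ ≤ _ := by gcongr; exact le_max_right _ _

lemma Extr_type {σ a : ℝ} (hσ : 0 ≤ σ) (ha : 0 ≤ a) (β : ℝ) (ε : ℝ) (hε : 0 < ε) :
    ∃ C : ℝ, ∀ z, ‖Extr σ a β z‖ ≤ C * Real.exp ((σ + ε) * ‖z‖) := by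
  obtain ⟨K, hK0, hK⟩ := exists_Sq_bound
  refine ⟨(1 + |β| * K) * Real.exp a, fun z => ?_⟩
  obtain ⟨s, hs⟩ : ∃ s : ℂ, (σ : ℂ) ^ 2 * z ^ 2 + (a : ℂ) ^ 2 = s ^ 2 :=
    ⟨Complex.sqrt _, (sqrt_sq' _).symm⟩
  have h1 : ‖s‖ ≤ a + (σ + ε) * ‖z‖ := by
    have h2 : ‖s‖ ^ 2 ≤ σ ^ 2 * ‖z‖ ^ 2 + a ^ 2 := by
      rw [← norm_pow, ← hs]
      refine (norm_add_le _ _).trans (le_of_eq ?_)
      simp [norm_pow]
    have h3 : ‖s‖ ≤ a + σ * ‖z‖ := by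
      refine (pow_le_pow_iff_left₀ (norm_nonneg _) (by positivity) two_ne_zero).mp (h2.trans ?_)
      have : 0 ≤ a * (σ * ‖z‖) := by positivity
      nlinarith
    have : 0 ≤ ε * ‖z‖ := by positivity
    linarith
  have h2 : ‖Cq (s ^ 2)‖ ≤ Real.exp ‖s‖ := by
    rw [Cq_sq]
    exact (norm_cos_le_exp s).trans (Real.exp_le_exp.mpr (Complex.abs_im_le_norm s))
  have h3 : ‖I * β * Sq (s ^ 2)‖ ≤ |β| * K * Real.exp ‖s‖ := by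
    rw [norm_mul, norm_mul, Complex.norm_I, one_mul, Complex.norm_real, Real.norm_eq_abs,
      mul_assoc]
    exact mul_le_mul_of_nonneg_left (hK s) (abs_nonneg _)
  rw [Extr, hs]
  calc _ ≤ Real.exp ‖s‖ + |β| * K * Real.exp ‖s‖ := (norm_add_le _ _).trans (add_le_add h2 h3)
    _ = (1 + |β| * K) * Real.exp ‖s‖ := by ring
    _ ≤ (1 + |β| * K) * Real.exp (a + (σ + ε) * ‖z‖) := by gcongr
    _ = _ := by rw [Real.exp_add]; ring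

lemma mul_sinc (s : ℝ) : s * Real.sinc s = Real.sin s := by
  by_cases h : s = 0
  · subst h; simp
  · rw [Real.sinc_of_ne_zero h]; field_simp

lemma Extr_bound (σ : ℝ) {a β : ℝ} (hβ : β ^ 2 ≤ a ^ 2) (x : ℝ) : ‖Extr σ a β x‖ ≤ 1 := by
  have hpos : 0 ≤ σ ^ 2 * x ^ 2 + a ^ 2 := by positivity
  set s : ℝ := Real.sqrt (σ ^ 2 * x ^ 2 + a ^ 2) with hs
  have hs2 : s ^ 2 = σ ^ 2 * x ^ 2 + a ^ 2 := Real.sq_sqrt hpos
  have e : (σ : ℂ) ^ 2 * (x : ℂ) ^ 2 + (a : ℂ) ^ 2 = (s : ℂ) ^ 2 := by exact_mod_cast hs2.symm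
  rw [Extr, e, Cq_sq, Sq_ofReal_sq, ← Complex.ofReal_cos]
  have e2 : ((Real.cos s : ℝ) : ℂ) + I * β * (Real.sinc s : ℝ) =
      (Real.cos s : ℝ) + ((β * Real.sinc s : ℝ) : ℂ) * I := by push_cast; ring
  rw [e2, Complex.norm_add_mul_I]
  refine Real.sqrt_le_one.mpr ?_
  have h1 : β ^ 2 ≤ s ^ 2 := by
    have : 0 ≤ σ ^ 2 * x ^ 2 := by positivity
    linarith
  have h2 := Real.sin_sq_add_cos_sq s
  rw [← mul_sinc s] at h2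
  have h3 : β ^ 2 * Real.sinc s ^ 2 ≤ s ^ 2 * Real.sinc s ^ 2 := by gcongr
  nlinarith

lemma Extr_zero (σ a β : ℝ) :
    Extr σ a β 0 = (Real.cos a : ℝ) + I * β * (Real.sinc a : ℝ) := by
  rw [Extr, ← Sq_ofReal_sq, Complex.ofReal_cos, ← Cq_sq]
  simp

lemma Extr_value (σ : ℝ) {a : ℝ} (ha0 : 0 ≤ a) (ha : a < π) (β : ℝ) (lam : ℂ) :
    -deriv (deriv (Extr σ a β)) 0 + lam * Extr σ a β 0 =
      (lam + (σ : ℂ) ^ 2 * Aq a) * Extr σ a β 0 + (σ : ℂ) ^ 2 * Bq a := by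
  set P : ℂ → ℂ := fun w =>
    Cq ((σ : ℂ) ^ 2 * w + (a : ℂ) ^ 2) + I * β * Sq ((σ : ℂ) ^ 2 * w + (a : ℂ) ^ 2) with hP
  have hin : ∀ w : ℂ, HasDerivAt (fun w : ℂ => (σ : ℂ) ^ 2 * w + (a : ℂ) ^ 2) ((σ : ℂ) ^ 2) w :=
    fun w => by simpa using ((hasDerivAt_id w).const_mul ((σ : ℂ) ^ 2)).add_const ((a : ℂ) ^ 2)
  have hP' : ∀ w : ℂ, HasDerivAt P
      (deriv Cq ((σ : ℂ) ^ 2 * w + (a : ℂ) ^ 2) * (σ : ℂ) ^ 2 +
        I * β * (deriv Sq ((σ : ℂ) ^ 2 * w + (a : ℂ) ^ 2) * (σ : ℂ) ^ 2)) w := fun w =>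
    ((Cq_diff _).hasDerivAt.comp w (hin w)).add
      (((Sq_diff _).hasDerivAt.comp w (hin w)).const_mul _)
  have hPd : Differentiable ℂ P := fun w => (hP' w).differentiableAt
  have e : Extr σ a β = fun z => P (z ^ 2 + 0) := by
    funext z; simp only [hP, Extr, add_zero]
  have h2 : deriv (deriv (Extr σ a β)) 0 = 2 * deriv P 0 := by rw [e, deriv2_comp_sq hPd]
  have hS := Sq_sq_ne_zero ha0 ha
  rw [h2, (hP' 0).deriv, deriv_Cq]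
  simp only [Extr, Bq, Aq, mul_zero, zero_add, ne_eq, OfNat.ofNat_ne_zero, not_false_eq_true,
    zero_pow]
  field_simp
  ring

lemma neg_two_deriv_Sq {a : ℝ} (ha : a ≠ 0) :
    -2 * deriv Sq ((a : ℂ) ^ 2) = (((Real.sinc a - Real.cos a) / a ^ 2 : ℝ) : ℂ) := by
  have h := Sq_ode ((a : ℂ) ^ 2)
  have ha' : (a : ℂ) ≠ 0 := by exact_mod_cast ha
  rw [Cq_sq, Sq_ofReal_sq] at h
  push_cast
  rw [eq_div_iff (pow_ne_zero 2 ha')]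
  linear_combination -h

lemma Aq_eq {a : ℝ} (ha0 : 0 < a) (ha : a < π) :
    Aq a = (((1 - a * Real.cot a) / a ^ 2 : ℝ) : ℂ) := by
  have hs := (Real.sin_pos_of_pos_of_lt_pi ha0 ha).ne'
  rw [Aq, neg_two_deriv_Sq ha0.ne', Sq_ofReal_sq, ← Complex.ofReal_div, Real.sinc_of_ne_zero ha0.ne',
    Real.cot_eq_cos_div_sin]
  congr 1
  field_simp

lemma Bq_eq {a : ℝ} (ha0 : 0 < a) (ha : a < π) :
    Bq a = (((a - Real.sin a * Real.cos a) / (a ^ 2 * Real.sin a) : ℝ) : ℂ) := by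
  have hs := (Real.sin_pos_of_pos_of_lt_pi ha0 ha).ne'
  rw [Bq, Aq_eq ha0 ha, Sq_ofReal_sq, Cq_sq, ← Complex.ofReal_cos, ← Complex.ofReal_mul,
    ← Complex.ofReal_sub, Real.sinc_of_ne_zero ha0.ne', Real.cot_eq_cos_div_sin]
  congr 1
  have := Real.sin_sq_add_cos_sq a
  field_simp
  linear_combination a * this

lemma Aq_zero : Aq 0 = 1 / 3 := by
  simp [Aq, deriv_Sq_zero, Sq_zero]; norm_num

lemma Bq_zero : Bq 0 = 2 / 3 := by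
  rw [Bq, Aq_zero]; simp [Sq_zero, Cq_zero]; norm_num

end Pool.Agent.P.MP_977360_an
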