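import Mathlib
import Pool.Agent.P.MP_977360_an.Lower

/-!
Existence and uniqueness of the root of the transcendental equation.
-/

open Filter Topology Set
open scoped Real

namespace Pool.Agent.P.MP_977360_an

lemma pos_of_deriv_pos {f f' : ℝ → ℝ} (h0 : f 0 = 0) (hd : ∀ x, HasDerivAt f (f' x) x)
    (hp : ∀ x ∈ Ioo 0 π, 0 < f' x) : ∀ x ∈ Ioo 0 π, 0 < f x := by
  intro x hx
  have hc : Continuous f := continuous_iff_continuousAt.mpr fun y => (hd y).continuousAt
  have hm : StrictMonoOn f (Icc 0 π) := by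
    refine strictMonoOn_of_deriv_pos (convex_Icc _ _) hc.continuousOn fun y hy => ?_
    rw [interior_Icc] at hy
    rw [(hd y).deriv]; exact hp y hy
  rw [← h0]
  exact hm ⟨le_rfl, Real.pi_pos.le⟩ ⟨hx.1.le, hx.2.le⟩ hx.1

lemma ineq1 : ∀ x ∈ Ioo 0 π, 0 < Real.sin x - x * Real.cos x := by
  refine pos_of_deriv_pos (f' := fun x => x * Real.sin x) (by simp) (fun x => ?_) fun x hx =>
    mul_pos hx.1 (Real.sin_pos_of_pos_of_lt_pi hx.1 hx.2)
  exact HasDerivAt.congr_deriv ((Real.hasDerivAt_sin x).sub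
    ((hasDerivAt_id x).mul (Real.hasDerivAt_cos x))) (by simp)

lemma ineq2 : ∀ x ∈ Ioo 0 π,
    0 < 2 * x - 3 * (Real.sin x * Real.cos x) + x * (Real.cos x ^ 2 - Real.sin x ^ 2) := by
  refine pos_of_deriv_pos (f' := fun x => 4 * Real.sin x * (Real.sin x - x * Real.cos x))
    (by simp) (fun x => ?_) fun x hx =>
    mul_pos (mul_pos four_pos (Real.sin_pos_of_pos_of_lt_pi hx.1 hx.2)) (ineq1 x hx)
  have hs := Real.hasDerivAt_sin x
  have hc := Real.hasDerivAt_cos x
  have hi := hasDerivAt_id x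
  refine HasDerivAt.congr_deriv (((hi.const_mul 2).sub ((hs.mul hc).const_mul 3)).add
    (hi.mul ((hc.pow 2).sub (hs.pow 2)))) ?_
  have := Real.sin_sq_add_cos_sq x
  simp
  linear_combination (-2) * this

lemma ineq3 : ∀ x ∈ Ioo 0 π,
    0 < x ^ 2 + x * (Real.sin x * Real.cos x) - 2 * Real.sin x ^ 2 := by
  refine pos_of_deriv_pos (by simp) (fun x => ?_) ineq2
  have hs := Real.hasDerivAt_sin x
  have hc := Real.hasDerivAt_cos x
  have hi := hasDerivAt_id x
  refine HasDerivAt.congr_deriv (((hi.pow 2).add (hi.mul (hs.mul hc))).sub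
    ((hs.pow 2).const_mul 2)) ?_
  simp
  ring

lemma root_strictMono (σ : ℝ) (hσ : 0 < σ) (m : ℝ) (hm : 0 ≤ m) :
    StrictMonoOn (fun a : ℝ => σ ^ 2 * ((1 - a * Real.cot a) / a ^ 2) - m * Real.cot a)
      (Ioo 0 π) := by
  have hd : ∀ a ∈ Ioo 0 π, HasDerivAt
      (fun a : ℝ => σ ^ 2 * ((1 - a * Real.cot a) / a ^ 2) - m * Real.cot a)
      (σ ^ 2 * ((a ^ 2 + a * (Real.sin a * Real.cos a) - 2 * Real.sin a ^ 2) /
        (a ^ 3 * Real.sin a ^ 2)) + m / Real.sin a ^ 2) a := by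
    intro a ha
    have hs0 := (Real.sin_pos_of_pos_of_lt_pi ha.1 ha.2).ne'
    have ha0 := ha.1.ne'
    have hs := Real.hasDerivAt_sin a
    have hc := Real.hasDerivAt_cos a
    have hi := hasDerivAt_id a
    have hcot : HasDerivAt Real.cot (-1 / Real.sin a ^ 2) a := by
      have e : Real.cot = fun x => Real.cos x / Real.sin x := by
        funext x; exact Real.cot_eq_cos_div_sin x
      rw [e]
      refine HasDerivAt.congr_deriv (hc.fun_div hs hs0) ?_
      have := Real.sin_sq_add_cos_sq a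
      congr 1
      linear_combination -this
    refine HasDerivAt.congr_deriv (((((hi.mul hcot).const_sub 1).fun_div (hi.pow 2)
      (pow_ne_zero 2 ha0)).const_mul (σ ^ 2)).sub (hcot.const_mul m)) ?_
    simp only [Real.cot_eq_cos_div_sin, id, Pi.mul_apply, Pi.pow_apply]
    field_simp
    ring
  refine strictMonoOn_of_deriv_pos (convex_Ioo _ _)
    (fun a ha => (hd a ha).continuousAt.continuousWithinAt) fun a ha => ?_
  rw [interior_Ioo] at ha
  rw [(hd a ha).deriv]
  have h1 := ineq3 a ha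
  have h2 := Real.sin_pos_of_pos_of_lt_pi ha.1 ha.2
  have h3 := ha.1
  positivity

lemma root_exists (σ : ℝ) (hσ : 0 < σ) (l m : ℝ) (hm : 0 ≤ m) (h : ¬(m = 0 ∧ -σ ^ 2 / 3 ≤ l)) :
    ∃ a ∈ Ioo 0 π, l + σ ^ 2 * ((1 - a * Real.cot a) / a ^ 2) = m * Real.cot a := by
  have hpi := Real.pi_pos
  set D : ℝ → ℝ := fun a => (-2 * deriv Sq ((a : ℂ) ^ 2)).re with hD
  have hDc : Continuous D := by
    have h1 : Continuous (deriv Sq) := Sq_diff.deriv.continuous
    simp only [hD]
    fun_prop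
  have hD0 : D 0 = 1 / 3 := by
    simp [hD, deriv_Sq_zero]; norm_num
  have hDa : ∀ a : ℝ, a ≠ 0 → D a = (Real.sin a / a - Real.cos a) / a ^ 2 := by
    intro a ha
    simp only [hD]
    rw [neg_two_deriv_Sq ha, Complex.ofReal_re, Real.sinc_of_ne_zero ha]
  have hDpi : 0 < D π := by
    rw [hDa π hpi.ne']; simp; positivity
  rcases hm.eq_or_lt with hm0 | hm0
  · subst hm0
    have hl : l < -σ ^ 2 / 3 := by
      by_contra hc
      exact h ⟨rfl, not_lt.mp hc⟩
    have hc : Continuous fun a : ℝ => l * Real.sinc a + σ ^ 2 * D a :=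
      (continuous_const.mul Real.continuous_sinc).add (continuous_const.mul hDc)
    have := intermediate_value_Ioo hpi.le hc.continuousOn
    have h0 : (0 : ℝ) ∈ Ioo (l * Real.sinc 0 + σ ^ 2 * D 0) (l * Real.sinc π + σ ^ 2 * D π) := by
      constructor
      · rw [hD0, Real.sinc_zero]; linarith
      · rw [Real.sinc_of_ne_zero hpi.ne', Real.sin_pi, zero_div, mul_zero, zero_add]
        positivity
    obtain ⟨a, ha, hab⟩ := this h0
    refine ⟨a, ha, ?_⟩
    have hs0 := (Real.sin_pos_of_pos_of_lt_pi ha.1 ha.2).ne'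
    have ha0 := ha.1.ne'
    simp only at hab
    rw [hDa a ha0, Real.sinc_of_ne_zero ha0] at hab
    rw [Real.cot_eq_cos_div_sin, zero_mul]
    have e : l + σ ^ 2 * ((1 - a * (Real.cos a / Real.sin a)) / a ^ 2) =
        (a / Real.sin a) * (l * (Real.sin a / a) + σ ^ 2 * ((Real.sin a / a - Real.cos a) / a ^ 2)) := by
      field_simp
    rw [e, hab, mul_zero]
  · have hc : Continuous fun a : ℝ => l * Real.sin a + σ ^ 2 * (a * D a) - m * Real.cos a := by
      fun_prop
    have := intermediate_value_Ioo hpi.le hc.continuousOn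
    have h0 : (0 : ℝ) ∈ Ioo (l * Real.sin 0 + σ ^ 2 * (0 * D 0) - m * Real.cos 0)
        (l * Real.sin π + σ ^ 2 * (π * D π) - m * Real.cos π) := by
      constructor
      · simpa using hm0
      · rw [Real.sin_pi, Real.cos_pi]
        have : 0 < σ ^ 2 * (π * D π) := by positivity
        linarith
    obtain ⟨a, ha, hab⟩ := this h0
    refine ⟨a, ha, ?_⟩
    have hs0 := (Real.sin_pos_of_pos_of_lt_pi ha.1 ha.2).ne'
    have ha0 := ha.1.ne'
    simp only at hab
    rw [hDa a ha0] at hab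
    rw [Real.cot_eq_cos_div_sin, ← sub_eq_zero]
    have e : l + σ ^ 2 * ((1 - a * (Real.cos a / Real.sin a)) / a ^ 2) -
        m * (Real.cos a / Real.sin a) = (1 / Real.sin a) * (l * Real.sin a +
          σ ^ 2 * (a * ((Real.sin a / a - Real.cos a) / a ^ 2)) - m * Real.cos a) := by
      field_simp
    rw [e, hab, mul_zero]

theorem root_existsUnique (σ : ℝ) (hσ : 0 < σ) (l m : ℝ) (hm : 0 ≤ m)
    (h : ¬(m = 0 ∧ -σ ^ 2 / 3 ≤ l)) :
    ∃! a : ℝ, a ∈ Ioo 0 π ∧ l + σ ^ 2 * ((1 - a * Real.cot a) / a ^ 2) = m * Real.cot a := by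
  obtain ⟨a, ha, hab⟩ := root_exists σ hσ l m hm h
  refine ⟨a, ⟨ha, hab⟩, fun b hb => ?_⟩
  refine (root_strictMono σ hσ m hm).injOn hb.1 ha ?_
  linarith [hb.2]

end Pool.Agent.P.MP_977360_an
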