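import Mathlib
import Pool.Agent.P.MP_977360_an.Root

/-!
Assembly of the two bounds, in terms of entire functions.
-/

open Complex Filter Topology Set Metric
open scoped Real

namespace Pool.Agent.P.MP_977360_an

lemma deriv_type {F : ℂ → ℂ} (hF : Differentiable ℂ F) {σ : ℝ} (hσ : 0 ≤ σ)
    (hexp : ∀ ε : ℝ, 0 < ε → ∃ C : ℝ, ∀ z, ‖F z‖ ≤ C * Real.exp ((σ + ε) * ‖z‖)) :
    ∀ ε : ℝ, 0 < ε → ∃ C : ℝ, ∀ z, ‖deriv F z‖ ≤ C * Real.exp ((σ + ε) * ‖z‖) := by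
  intro ε hε
  obtain ⟨C, hC⟩ := hexp ε hε
  have hC0 : 0 ≤ C := by
    have := (norm_nonneg _).trans (hC 0)
    simpa using this
  refine ⟨C * Real.exp (σ + ε), fun z => ?_⟩
  have := Complex.norm_deriv_le_of_forall_mem_sphere_norm_le (c := z) (R := 1)
    (C := C * Real.exp (σ + ε) * Real.exp ((σ + ε) * ‖z‖)) one_pos hF.diffContOnCl
    (fun w hw => by
      refine (hC w).trans ?_
      rw [mul_assoc, ← Real.exp_add]
      have h1 : ‖w‖ ≤ 1 + ‖z‖ := by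
        rw [mem_sphere_iff_norm] at hw
        have := norm_add_le (w - z) z
        rw [sub_add_cancel, hw] at this
        exact this
      have h2 : (σ + ε) * ‖w‖ ≤ (σ + ε) * (1 + ‖z‖) := by gcongr
      gcongr
      linarith)
  simpa using this

lemma op_type {F : ℂ → ℂ} (hF : Differentiable ℂ F) {σ : ℝ} (hσ : 0 ≤ σ)
    (hexp : ∀ ε : ℝ, 0 < ε → ∃ C : ℝ, ∀ z, ‖F z‖ ≤ C * Real.exp ((σ + ε) * ‖z‖)) (lam : ℂ) :
    ∀ ε : ℝ, 0 < ε → ∃ C : ℝ, ∀ z,
      ‖-deriv (deriv F) z + lam * F z‖ ≤ C * Real.exp ((σ + ε) * ‖z‖) := by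
  intro ε hε
  obtain ⟨C, hC⟩ := hexp ε hε
  obtain ⟨D, hD⟩ := deriv_type hF.deriv hσ (deriv_type hF hσ hexp) ε hε
  refine ⟨D + ‖lam‖ * C, fun z => ?_⟩
  refine (norm_add_le _ _).trans ?_
  rw [norm_neg, norm_mul, add_mul, mul_assoc]
  exact add_le_add (hD z) (mul_le_mul_of_nonneg_left (hC z) (norm_nonneg _))

lemma iteratedDeriv_two_ofReal {F : ℂ → ℂ} (hF : Differentiable ℂ F) {f : ℝ → ℂ}
    (hf : ∀ x : ℝ, f x = F x) (x : ℝ) : iteratedDeriv 2 f x = deriv (deriv F) x := by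
  have e : f = fun x : ℝ => F x := funext hf
  have e1 : deriv f = fun x : ℝ => deriv F x := by
    funext y; rw [e]; exact (hF (y : ℂ)).hasDerivAt.comp_ofReal.deriv
  rw [iteratedDeriv_succ, iteratedDeriv_one, e1]
  exact (hF.deriv (x : ℂ)).hasDerivAt.comp_ofReal.deriv

/-- Value of the upper bound at a root, and an extremal function attaining it. -/
lemma root_values {σ : ℝ} {lam : ℂ} {a : ℝ} (ha : a ∈ Ioo 0 π)
    (h : lam.re + σ ^ 2 * ((1 - a * Real.cot a) / a ^ 2) = |lam.im| * Real.cot a) :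
    ‖lam + (σ : ℂ) ^ 2 * Aq a‖ + σ ^ 2 * (Bq a).re =
      |lam.im| / Real.sin a + σ ^ 2 * ((a - Real.sin a * Real.cos a) / (a ^ 2 * Real.sin a)) ∧
    ∃ β : ℝ, β ^ 2 ≤ a ^ 2 ∧ (-deriv (deriv (Extr σ a β)) 0 + lam * Extr σ a β 0).re =
      |lam.im| / Real.sin a + σ ^ 2 * ((a - Real.sin a * Real.cos a) / (a ^ 2 * Real.sin a)) := by
  have hs := Real.sin_pos_of_pos_of_lt_pi ha.1 ha.2
  have hsc := Real.sin_sq_add_cos_sq a
  obtain ⟨e, he1, he2⟩ : ∃ e : ℝ, e ^ 2 = 1 ∧ lam.im = e * |lam.im| := by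
    rcases abs_cases lam.im with ⟨h, _⟩ | ⟨h, _⟩
    · exact ⟨1, by norm_num, by rw [h, one_mul]⟩
    · exact ⟨-1, by norm_num, by rw [h]; ring⟩
  have key : lam + (σ : ℂ) ^ 2 * Aq a =
      ((|lam.im| / Real.sin a : ℝ) : ℂ) * ((Real.cos a : ℝ) + ((e * Real.sin a : ℝ) : ℂ) * I) := by
    rw [Aq_eq ha.1 ha.2, ← Complex.ofReal_pow, ← Complex.ofReal_mul]
    apply Complex.ext
    · rw [Complex.add_re, Complex.ofReal_re, h, Complex.re_ofReal_mul, Real.cot_eq_cos_div_sin]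
      simp only [Complex.add_re, Complex.ofReal_re, Complex.mul_re, Complex.I_re, Complex.I_im,
        Complex.ofReal_im]
      ring
    · rw [Complex.add_im, Complex.ofReal_im, Complex.im_ofReal_mul]
      simp only [Complex.add_im, Complex.ofReal_re, Complex.mul_im, Complex.I_re, Complex.I_im,
        Complex.ofReal_im]
      field_simp
      linear_combination Real.sin a * he2
  constructor
  · rw [key, Bq_eq ha.1 ha.2, Complex.ofReal_re, norm_mul, Complex.norm_add_mul_I,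
      Complex.norm_real, Real.norm_eq_abs, abs_of_nonneg (by positivity)]
    have : Real.cos a ^ 2 + (e * Real.sin a) ^ 2 = 1 := by
      rw [mul_pow, he1]; linarith
    rw [this, Real.sqrt_one, mul_one]
  · refine ⟨-e * a, by rw [mul_pow, neg_sq, he1, one_mul], ?_⟩
    rw [Extr_value σ ha.1.le ha.2, key, Extr_zero, Bq_eq ha.1 ha.2]
    have e1 : ((Real.cos a : ℝ) : ℂ) + I * ((-e * a : ℝ) : ℂ) * (Real.sinc a : ℝ) =
        (Real.cos a : ℝ) - ((e * Real.sin a : ℝ) : ℂ) * I := by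
      rw [← mul_sinc a]; push_cast; ring
    have e2 : (((Real.cos a : ℝ) : ℂ) + ((e * Real.sin a : ℝ) : ℂ) * I) *
        ((Real.cos a : ℝ) - ((e * Real.sin a : ℝ) : ℂ) * I) = 1 := by
      have h1 : ((Real.cos a ^ 2 + (e * Real.sin a) ^ 2 : ℝ) : ℂ) = 1 := by
        rw [mul_pow, he1, one_mul, add_comm, hsc]; simp
      rw [← h1, Complex.ofReal_add, Complex.ofReal_pow, Complex.ofReal_pow]
      linear_combination (-((e * Real.sin a : ℝ) : ℂ) ^ 2) * Complex.I_sq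
    rw [e1, mul_assoc, e2, mul_one, ← Complex.ofReal_pow, ← Complex.ofReal_mul,
      ← Complex.ofReal_add, Complex.ofReal_re]

lemma zero_values {σ : ℝ} {lam : ℂ} (h1 : lam.im = 0) (h2 : -σ ^ 2 / 3 ≤ lam.re) :
    ‖lam + (σ : ℂ) ^ 2 * Aq 0‖ + σ ^ 2 * (Bq 0).re = σ ^ 2 + lam.re ∧
    (-deriv (deriv (Extr σ 0 0)) 0 + lam * Extr σ 0 0 0).re = σ ^ 2 + lam.re := by
  have key : lam + (σ : ℂ) ^ 2 * Aq 0 = ((lam.re + σ ^ 2 / 3 : ℝ) : ℂ) := by
    rw [Aq_zero]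
    conv_lhs => rw [← Complex.re_add_im lam, h1]
    push_cast; ring
  have hB : Bq 0 = ((2 / 3 : ℝ) : ℂ) := by rw [Bq_zero]; push_cast; ring
  constructor
  · rw [key, hB, Complex.ofReal_re, Complex.norm_real, Real.norm_eq_abs,
      abs_of_nonneg (by linarith)]
    ring
  · rw [Extr_value σ le_rfl Real.pi_pos, key, Extr_zero, hB]
    have : ((Real.cos 0 : ℝ) : ℂ) + I * ((0 : ℝ) : ℂ) * (Real.sinc 0 : ℝ) = 1 := by simp
    rw [this, mul_one, ← Complex.ofReal_pow, ← Complex.ofReal_mul,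
      ← Complex.ofReal_add, Complex.ofReal_re]
    ring

end Pool.Agent.P.MP_977360_an
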